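import Pool.Agent.Helper47.DS.Defs
import Pool.Agent.Helper53.BQ.W

/-!
# Row DK of Theorem D* (MP_5165fa): few elements deleted for `N₁` and contracted for `N₂`
-/

open Set BIC
open scoped Matroid

namespace BICS

universe u

namespace DK70

variable {α : Type u} {M : Matroid α} {E₁ E₂ C D P : Set α} {e₁ e₂ : α → Sym2 (ℕ × ℕ)} {K : ℕ}

/-- The situation which is kept during the reduction. -/
structure Sys (M : Matroid α) (E₁ E₂ C D : Set α) (e₁ e₂ : α → Sym2 (ℕ × ℕ)) (K : ℕ) : Prop where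
  fin : M.Finite
  hE₁ : E₁ ⊆ M.E
  hE₂ : E₂ ⊆ M.E
  dis : Disjoint E₁ E₂
  hC : C ⊆ M.E \ E₁
  hD : D ⊆ M.E \ E₂
  b₁ : Bic (M ／ C) E₁ e₁
  b₂ : Bic (M✶ ／ D) E₂ e₂
  hK : KGe M E₁ E₂ K

lemma Sys.dual (h : Sys M E₁ E₂ C D e₁ e₂ K) : Sys M✶ E₂ E₁ D C e₂ e₁ K := by
  have := h.fin
  refine ⟨inferInstance, h.hE₂, h.hE₁, h.dis.symm, h.hD, h.hC, h.b₂, ?_, h.hK.dual h.hE₁⟩
  rw [Matroid.dual_dual]
  exact h.b₁

lemma Sys.con (h : Sys M E₁ E₂ C D e₁ e₂ K) (hP : P ⊆ C \ (D ∪ E₂)) {K' : ℕ}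
    (hK : KGe (M ／ P) E₁ E₂ K') : Sys (M ／ P) E₁ E₂ (C \ P) D e₁ e₂ K' := by
  have := h.fin
  have hPC : P ⊆ C := hP.trans sdiff_subset
  have fin2 : (M ／ P).Finite := BQ.fin_contract P
  have c1 : M ／ P ／ (C \ P) = M ／ C := by
    rw [Matroid.contract_contract, union_sdiff_self, union_eq_self_of_subset_left hPC]
  have hE₂P : E₂ ⊆ (M ／ P).E := fun z hz => ⟨h.hE₂ hz, fun g => (hP g).2 (Or.inr hz)⟩
  refine ⟨fin2, fun z hz => ⟨h.hE₁ hz, fun g => (h.hC (hPC g)).2 hz⟩, hE₂P, h.dis, ?_, ?_, ?_,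
    ?_, hK⟩
  · rintro z ⟨hz1, hz2⟩
    exact ⟨⟨(h.hC hz1).1, hz2⟩, (h.hC hz1).2⟩
  · intro z hz
    exact ⟨⟨(h.hD hz).1, fun g => (hP g).2 (Or.inl hz)⟩, (h.hD hz).2⟩
  · rw [c1]
    exact h.b₁
  · have c2 : (M ／ P)✶ ／ D = M✶ ／ D ＼ P := by
      rw [Matroid.dual_contract]
      have hdd : Disjoint D P := by
        rw [Set.disjoint_left]
        exact fun z hz hz2 => (hP hz2).2 (Or.inl hz)
      rw [Matroid.contract_delete_comm M✶ hdd]
    rw [c2]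
    have fin3 : (M✶ ／ D ＼ P).Finite := BQ.fin_delete P
    have fin4 : (M✶ ／ D).Finite := BQ.fin_contract D
    have hY1 : E₂ ⊆ (M✶ ／ D).E \ P := fun z hz =>
      ⟨⟨h.hE₂ hz, fun g => (h.hD g).2 hz⟩, fun g => (hP g).2 (Or.inr hz)⟩
    refine Bic_of_rk h.b₂ hY1 ?_
    intro X hX
    rw [rk_delete (hX.trans hY1)]

lemma Sys.step {k : ℕ} (h : Sys M E₁ E₂ C D e₁ e₂ (K + 1)) (hP : P ⊆ C \ (D ∪ E₂))
    (hS : ∀ (M' : Matroid α) (C' D' : Set α), Sys M' E₁ E₂ C' D' e₁ e₂ K →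
      ¬ KGe M' E₁ E₂ (K + 1) → HasUniformMinor M' k) :
    HasUniformMinor M k ∨ Sys (M ／ P) E₁ E₂ (C \ P) D e₁ e₂ (K + 1) := by
  have := h.fin
  have hPE : P ⊆ M.E \ (E₁ ∪ E₂) := by
    intro z hz
    refine ⟨(h.hC (hP hz).1).1, ?_⟩
    rintro (g | g)
    · exact (h.hC (hP hz).1).2 g
    · exact (hP hz).2 (Or.inr g)
  rcases cont h.hE₁ h.hE₂ h.dis hPE (BQ.KGe.mono_n h.hK (Nat.le_succ K)) with
    ⟨P', hP', ka, kb⟩ | ka
  · left
    refine hum_mono ?_ (hS _ _ _ (h.con (hP'.trans hP) ka) kb)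
    have := Matroid.contract_delete_isMinor M P' ∅
    rwa [Matroid.delete_empty] at this
  · exact Or.inr (h.con hP ka)

/-- passing to an independent set of contracted elements -/
lemma Sys.basis (h : Sys M E₁ E₂ C D e₁ e₂ K) :
    ∃ I ⊆ C, M.Indep I ∧ Sys M E₁ E₂ I D e₁ e₂ K := by
  have := h.fin
  have hCE : C ⊆ M.E := h.hC.trans sdiff_subset
  obtain ⟨I, hI⟩ := M.exists_isBasis C hCE
  refine ⟨I, hI.subset, hI.indep, h.fin, h.hE₁, h.hE₂, h.dis, hI.subset.trans h.hC, h.hD, ?_,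
    h.b₂, h.hK⟩
  have f1 : (M ／ C).Finite := BQ.fin_contract C
  have f2 : (M ／ I).Finite := BQ.fin_contract I
  have hIE : I ⊆ M.E := hI.subset.trans hCE
  have hE₁I : E₁ ⊆ M.E \ I := fun z hz => ⟨h.hE₁ hz, fun g => (h.hC (hI.subset g)).2 hz⟩
  have hE₁C : E₁ ⊆ M.E \ C := fun z hz => ⟨h.hE₁ hz, fun g => (h.hC g).2 hz⟩
  refine Bic_of_rk h.b₁ hE₁I ?_
  intro X hX
  have r1 := BQ.rk_con (M := M) (C := I) (X := X) hIE (hX.trans hE₁I)
  have r2 := BQ.rk_con (M := M) (C := C) (X := X) hCE (hX.trans hE₁C)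
  have r3 : rk M I = rk M C := by
    rw [← rk_closure I, hI.closure_eq_closure, rk_closure]
  have r4 : rk M (X ∪ I) = rk M (X ∪ C) := by
    rw [← rk_closure (X ∪ I), ← rk_closure (X ∪ C), ← M.closure_union_closure_right_eq X I,
      hI.closure_eq_closure, M.closure_union_closure_right_eq]
  omega

/-- the number of edges of the plain grid -/
lemma grd_ncard {S : Set α} {ends : α → Sym2 (ℕ × ℕ)} {x y n : ℕ} (hG : Grd S ends x y n n) :
    S.ncard ≤ 2 * n ^ 2 := by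
  classical
  have hfin : (rect x y n n).Finite := by
    rw [← Set.encard_lt_top_iff]
    exact lt_of_le_of_lt (rect_encard x y n n) (ENat.natCast_lt_top _)
  have hc : (rect x y n n).ncard ≤ n * n := by
    have h := rect_encard x y n n
    rw [← hfin.cast_ncard_eq] at h
    exact_mod_cast h
  set T : Set (Sym2 (ℕ × ℕ)) := (fun p : ℕ × ℕ => s(p, (p.1, p.2 + 1))) '' (rect x y n n) ∪
    (fun p : ℕ × ℕ => s(p, (p.1 + 1, p.2))) '' (rect x y n n) with hT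
  have hTf : T.Finite := (hfin.image _).union (hfin.image _)
  have h1 : ends '' S ⊆ T := by
    rintro _ ⟨e, he, rfl⟩
    obtain ⟨p, q, h2, h3, h4, h5⟩ := hG.mem e he
    rw [h2]
    rcases h3 with ⟨h6, h7 | h7⟩ | ⟨h6, h7 | h7⟩
    · left
      refine ⟨p, h4, ?_⟩
      have : q = (p.1, p.2 + 1) := Prod.ext h6.symm h7.symm
      rw [this]
    · left
      refine ⟨q, h5, ?_⟩
      have : p = (q.1, q.2 + 1) := Prod.ext h6 h7.symm
      rw [this, Sym2.eq_swap]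
    · right
      refine ⟨p, h4, ?_⟩
      have : q = (p.1 + 1, p.2) := Prod.ext h7.symm h6.symm
      rw [this]
    · right
      refine ⟨q, h5, ?_⟩
      have : p = (q.1 + 1, q.2) := Prod.ext h7.symm h6
      rw [this, Sym2.eq_swap]
  have h2 : S.ncard = (ends '' S).ncard := hG.inj.ncard_image.symm
  rw [h2]
  refine (Set.ncard_le_ncard h1 hTf).trans ?_
  refine (Set.ncard_union_le _ _).trans ?_
  have h3 := Set.ncard_image_le (f := fun p : ℕ × ℕ => s(p, (p.1, p.2 + 1))) hfin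
  have h4 := Set.ncard_image_le (f := fun p : ℕ × ℕ => s(p, (p.1 + 1, p.2))) hfin
  nlinarith

end DK70

open DK70 in
/-- **Row DK.** -/
theorem dkStmt_of_ds (k : ℕ) (hk : 1 ≤ k) (hDS : DsStmt.{u} k) : DkStmt.{u} k := by
  obtain ⟨κ₀, hSP⟩ := thmSP.{u} k hk
  obtain ⟨Λ, hΛ⟩ := hDS 0
  set K := κ₀ + Λ with hKdef
  obtain ⟨s₀, hs₀⟩ := hSP K
  refine ⟨8 * Λ + s₀ + K + 8, ?_⟩
  intro n hn α M hM E₁ E₂ C₁ D₂ e₁ e₂ x y x' y' hE₁ hE₂ hE hC₁ hD₂ hB₁ hG₁ hB₂ hG₂ hT hK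
  -- the sparse case
  have hS : ∀ (M' : Matroid α) (C' D' : Set α), Sys M' E₁ E₂ C' D' e₁ e₂ K →
      ¬ KGe M' E₁ E₂ (K + 1) → HasUniformMinor M' k := by
    intro M' C' D' h hcon
    have := h.fin
    refine hs₀ n (by omega) n (by omega) M' E₁ E₂ C' D' h.hE₁ h.hE₂ h.dis h.hC h.hD
      (Grd.toPGrid (by omega) h.b₁ hG₁) (Grd.toPGrid (by omega) h.b₂ hG₂)
      (BQ.KGe.mono_n h.hK (by omega)) hcon
  have hS' : ∀ (M' : Matroid α) (C' D' : Set α), Sys M' E₂ E₁ C' D' e₂ e₁ K →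
      ¬ KGe M' E₂ E₁ (K + 1) → HasUniformMinor M' k := by
    intro M' C' D' h hcon
    have := h.fin
    refine hum_dual (hS M'✶ D' C' h.dual ?_)
    intro g
    apply hcon
    have g1 := g.dual (M := M'✶) (by exact h.hE₂)
    rwa [Matroid.dual_dual] at g1
  have s0 : Sys M E₁ E₂ C₁ D₂ e₁ e₂ (K + 1) :=
    ⟨hM, hE₁, hE₂, hE, hC₁, hD₂, hB₁, hB₂, BQ.KGe.mono_n hK (by omega)⟩
  -- stage 1: contract
  set P₁ := C₁ \ (D₂ ∪ E₂) with hP₁
  rcases s0.step (P := P₁) (subset_refl _) hS with h | s1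
  · exact h
  suffices hmain : HasUniformMinor (M ／ P₁) k by
    refine hum_mono ?_ hmain
    have := Matroid.contract_delete_isMinor M P₁ ∅
    rwa [Matroid.delete_empty] at this
  -- stage 2: independent
  obtain ⟨I, hI, hIind, s2⟩ := s1.basis
  -- stage 3: delete
  set P₃ := D₂ \ (I ∪ E₁) with hP₃
  rcases s2.dual.step (P := P₃) (subset_refl _) hS' with h | s3
  · have := s2.fin
    exact hum_dual h
  have := s2.fin
  refine hum_dual ?_
  suffices hmain : HasUniformMinor ((M ／ P₁)✶ ／ P₃) k by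
    refine hum_mono ?_ hmain
    have := Matroid.contract_delete_isMinor (M ／ P₁)✶ P₃ ∅
    rwa [Matroid.delete_empty] at this
  -- stage 4: coindependent
  obtain ⟨J, hJ, hJind, s4⟩ := s3.basis
  -- stage 5: contract
  set P₅ := I \ (J ∪ E₂) with hP₅
  have := s4.fin
  refine hum_dual ?_
  rcases s4.dual.step (P := P₅) (subset_refl _) hS with h | s5
  · exact h
  suffices hmain : HasUniformMinor (((M ／ P₁)✶ ／ P₃)✶ ／ P₅) k by
    refine hum_mono ?_ hmain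
    have := Matroid.contract_delete_isMinor ((M ／ P₁)✶ ／ P₃)✶ P₅ ∅
    rwa [Matroid.delete_empty] at this
  set M₃ := ((M ／ P₁)✶ ／ P₃)✶ with hM₃
  set M₅ := M₃ ／ P₅ with hM₅
  have fin5 := s5.fin
  have fin3 : M₃.Finite := s4.dual.fin
  -- grounds
  have g3 : M₃.E = (M.E \ P₁) \ P₃ := rfl
  have g5 : M₅.E = ((M.E \ P₁) \ P₃) \ P₅ := rfl
  have hPI : P₅ ⊆ I := sdiff_subset
  have hIE3 : I ⊆ M₃.E := (s4.dual.hC.trans sdiff_subset)
  -- `I` is independent in `M₃`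
  have hM₃' : M₃ = (M ／ P₁) ＼ P₃ := by
    rw [hM₃, Matroid.dual_contract, Matroid.dual_dual]
  have hI3 : M₃.Indep I := by
    rw [hM₃', Matroid.delete_indep_iff]
    refine ⟨hIind, ?_⟩
    rw [Set.disjoint_left]
    intro z hz hz2
    exact hz2.2 (Or.inl hz)
  have hI5 : M₅.Indep (I \ P₅) := by
    have hP5i : M₃.Indep P₅ := hI3.subset hPI
    rw [hM₅, hP5i.contract_indep_iff]
    refine ⟨disjoint_sdiff_left, ?_⟩
    rw [sdiff_union_of_subset hPI]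
    exact hI3
  -- `J` is coindependent in `M₅`
  have hJ3 : M₃✶.Indep J := by
    rw [hM₃, Matroid.dual_dual]
    exact hJind
  have hJ5 : M₅✶.Indep J := by
    rw [hM₅, Matroid.dual_contract, Matroid.delete_indep_iff]
    refine ⟨hJ3, ?_⟩
    rw [Set.disjoint_left]
    intro z hz hz2
    exact hz2.2 (Or.inl hz)
  -- counting
  set T := M.E \ (E₁ ∪ E₂ ∪ C₁ ∪ D₂) with hTdef
  have hJD : J ⊆ D₂ := hJ.trans sdiff_subset
  have hIC : I ⊆ C₁ := hI.trans sdiff_subset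
  have hcov : M₅.E \ J ⊆ (E₁ ∪ E₂) ∪ T := by
    rw [g5]
    rintro z ⟨⟨⟨⟨h1, h2⟩, h3⟩, h4⟩, h5⟩
    by_contra hcon
    have h6 : z ∉ E₁ := fun h => hcon (Or.inl (Or.inl h))
    have h7 : z ∉ E₂ := fun h => hcon (Or.inl (Or.inr h))
    have h8 : z ∈ C₁ ∨ z ∈ D₂ := by
      by_contra h
      push Not at h
      refine hcon (Or.inr ⟨h1, ?_⟩)
      rintro (((g | g) | g) | g)
      · exact h6 g
      · exact h7 g
      · exact h.1 g
      · exact h.2 g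
    have h9 : z ∈ D₂ := by
      rcases h8 with h8 | h8
      · by_contra hd
        exact h2 ⟨h8, fun g => g.elim hd h7⟩
      · exact h8
    have h10 : z ∈ I := by
      by_contra hi
      exact h3 ⟨h9, fun g => g.elim hi h6⟩
    exact h4 ⟨h10, fun g => g.elim h5 h7⟩
  have hTf : T.Finite := M.ground_finite.subset sdiff_subset
  have hE₁f : E₁.Finite := M.ground_finite.subset hE₁
  have hE₂f : E₂.Finite := M.ground_finite.subset hE₂
  have hcard : (M₅.E \ J).ncard ≤ 4 * n ^ 2 + T.ncard := by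
    refine (Set.ncard_le_ncard hcov ((hE₁f.union hE₂f).union hTf)).trans ?_
    refine (Set.ncard_union_le _ _).trans ?_
    have h1 := Set.ncard_union_le E₁ E₂
    have h2 := grd_ncard hG₁
    have h3 := grd_ncard hG₂
    omega
  have hconf : ((I \ P₅) ∩ J).ncard ≤ 4 * n ^ 2 + T.ncard := by
    have hIf : (I \ P₅).Finite := fin5.ground_finite.subset hI5.subset_ground
    have h1 : ((I \ P₅) ∩ J).ncard ≤ (I \ P₅).ncard := Set.ncard_le_ncard inter_subset_left hIf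
    have h2 : (I \ P₅).ncard ≤ rk M₅ M₅.E := by
      rw [← rk_indep hI5]
      exact rk_mono M₅ hI5.subset_ground
    have hJE : J ⊆ M₅.E := hJ5.subset_ground
    have h3 := rk_dual (M := M₅) hJE
    have h4 : rk M₅✶ J = J.ncard := rk_indep hJ5
    have h5 : rk M₅ (M₅.E \ J) ≤ (M₅.E \ J).ncard :=
      rk_le_ncard M₅ (fin5.ground_finite.subset sdiff_subset)
    omega
  refine hΛ n (by omega) M₅ E₁ E₂ (I \ P₅) J ∅ ∅ univ e₁ e₂ x y x' y' s5.hE₁ s5.hE₂ hE s5.hC s5.hD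
    s5.b₁ hG₁ s5.b₂ hG₂ (fun z _ => Or.inr (mem_univ z)) ?_ ?_ ?_ (BQ.KGe.mono_n s5.hK (by omega))
  · rw [sdiff_empty, Nat.add_zero]
  · rw [sdiff_empty, Nat.add_zero]
  · rw [inter_univ]
    have h1 : Λ * ((I \ P₅) ∩ J).ncard ≤ Λ * (4 * n ^ 2 + T.ncard) :=
      Nat.mul_le_mul_left _ hconf
    have h2 : 8 * Λ ≤ n := by omega
    have h2' : 8 ≤ n := by omega
    have h3 : 8 * Λ * T.ncard ≤ n ^ 4 := by
      refine le_trans (Nat.mul_le_mul_right _ ?_) hT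
      omega
    have h4 : n ^ 4 = n ^ 2 * (n * n) := by ring
    have h5 : 8 * Λ * n ^ 2 ≤ n ^ 4 := by
      rw [h4, mul_comm]
      refine Nat.mul_le_mul_left _ ?_
      nlinarith
    have h6 : Λ * (4 * n ^ 2 + T.ncard) = 4 * (Λ * n ^ 2) + Λ * T.ncard := by ring
    have h7 : 8 * Λ * n ^ 2 = 8 * (Λ * n ^ 2) := by ring
    have h8 : 8 * Λ * T.ncard = 8 * (Λ * T.ncard) := by ring
    omega

end BICS
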