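import Pool.Agent.Helper70.DK.Dk

/-!
# Theorem D* in terms of the rank of `M` (MP_5165fa)
-/

open Set BIC
open scoped Matroid

namespace BICS

universe u

open DK70 in
/-- **Theorem D\*, rank form**: the rank of `M` is at most `n ^ 4 / Λ`. -/
theorem rkStmt_of_ds (k : ℕ) (hDS : DsStmt.{u} k) :
    ∃ Λ : ℕ, ∀ n ≥ Λ, ∀ {α : Type u} (M : Matroid α) [M.Finite]
    (E₁ E₂ C₁ D₂ : Set α) (e₁ e₂ : α → Sym2 (ℕ × ℕ)) (x y x' y' : ℕ),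
    E₁ ⊆ M.E → E₂ ⊆ M.E → Disjoint E₁ E₂ → C₁ ⊆ M.E \ E₁ → D₂ ⊆ M.E \ E₂ →
    Bic (M ／ C₁) E₁ e₁ → Grd E₁ e₁ x y n n → Bic (M✶ ／ D₂) E₂ e₂ → Grd E₂ e₂ x' y' n n →
    (Λ * rk M M.E ≤ n ^ 4 ∨ Λ * rk M✶ M.E ≤ n ^ 4) → KGe M E₁ E₂ Λ → HasUniformMinor M k := by
  obtain ⟨Λ, hΛ⟩ := hDS 0
  -- the primal statement
  have key : ∀ n ≥ Λ, ∀ {α : Type u} (M : Matroid α) [M.Finite]
      (E₁ E₂ C₁ D₂ : Set α) (e₁ e₂ : α → Sym2 (ℕ × ℕ)) (x y x' y' : ℕ),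
      E₁ ⊆ M.E → E₂ ⊆ M.E → Disjoint E₁ E₂ → C₁ ⊆ M.E \ E₁ → D₂ ⊆ M.E \ E₂ →
      Bic (M ／ C₁) E₁ e₁ → Grd E₁ e₁ x y n n → Bic (M✶ ／ D₂) E₂ e₂ → Grd E₂ e₂ x' y' n n →
      Λ * rk M M.E ≤ n ^ 4 → KGe M E₁ E₂ Λ → HasUniformMinor M k := by
    intro n hn α M hM E₁ E₂ C₁ D₂ e₁ e₂ x y x' y' hE₁ hE₂ hE hC₁ hD₂ hB₁ hG₁ hB₂ hG₂ hr hK
    have s0 : Sys M E₁ E₂ C₁ D₂ e₁ e₂ Λ := ⟨hM, hE₁, hE₂, hE, hC₁, hD₂, hB₁, hB₂, hK⟩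
    obtain ⟨I, hI, hIind, s1⟩ := s0.basis
    have hIf : I.Finite := M.ground_finite.subset hIind.subset_ground
    refine hΛ n hn M E₁ E₂ I D₂ ∅ ∅ univ e₁ e₂ x y x' y' hE₁ hE₂ hE s1.hC hD₂
      s1.b₁ hG₁ hB₂ hG₂ (fun z _ => Or.inr (mem_univ z)) ?_ ?_ ?_ hK
    · rw [sdiff_empty, Nat.add_zero]
    · rw [sdiff_empty, Nat.add_zero]
    · refine le_trans (Nat.mul_le_mul_left _ ?_) hr
      have h1 : (I ∩ D₂ ∩ univ).ncard ≤ I.ncard :=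
        Set.ncard_le_ncard (inter_subset_left.trans inter_subset_left) hIf
      have h2 : I.ncard ≤ rk M M.E := by
        rw [← rk_indep hIind]
        exact rk_mono M hIind.subset_ground
      exact h1.trans h2
  refine ⟨Λ, ?_⟩
  intro n hn α M hM E₁ E₂ C₁ D₂ e₁ e₂ x y x' y' hE₁ hE₂ hE hC₁ hD₂ hB₁ hG₁ hB₂ hG₂ hr hK
  rcases hr with hr | hr
  · exact key n hn M E₁ E₂ C₁ D₂ e₁ e₂ x y x' y' hE₁ hE₂ hE hC₁ hD₂ hB₁ hG₁ hB₂ hG₂ hr hK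
  · refine hum_dual (key n hn M✶ E₂ E₁ D₂ C₁ e₂ e₁ x' y' x y hE₂ hE₁ hE.symm hD₂ hC₁ hB₂ hG₂ ?_
      hG₁ hr (hK.dual hE₁))
    rw [Matroid.dual_dual]
    exact hB₁

end BICS
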